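import Pool.Agent.U196.SO.Stm2
import Pool.Agent.Q121.UM.LIT

/-!
# Project SL, package GLINE: the lemma of Littlewood on a vertical line with a Gaussian weight

Adapted from `Pool/Agent/U196/SO/LINEb.lean` and `Pool/Agent/Q257/UM/VAV.lean`.
-/

set_option autoImplicit false

namespace Pool.Agent.U618.SL

open Filter Topology MeasureTheory Complex
open Pool.Agent.Q97.UM (ZD mz S_LIT)
open Pool.Agent.Q257.UM (mem_ZD)
open Pool.Agent.Q257.UM.VA (log_bd B1 B1_nonneg Gz_norm z_ne z_an)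
open Pool.Agent.U196.SO (gk Zw wl S_GLINE)

noncomputable section

theorem gk_im (k y : ℝ) : gk k ((y : ℂ) * I) = ((Real.exp (-(k * y ^ 2)) : ℝ) : ℂ) := by
  unfold gk
  rw [Complex.ofReal_exp]
  congr 1
  push_cast
  rw [mul_pow, I_sq]
  ring

theorem gk_norm (k : ℝ) (z : ℂ) : ‖gk k z‖ = Real.exp (k * (z.re ^ 2 - z.im ^ 2)) := by
  unfold gk
  rw [Complex.norm_exp, Complex.re_ofReal_mul, pow_two z, Complex.mul_re]
  congr 1
  ring

theorem gk_diff (k : ℝ) : Differentiable ℂ (gk k) := by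
  unfold gk
  fun_prop

/-- a bound by the integral of a majorant -/
theorem int_le {E : Type} [NormedAddCommGroup E] [NormedSpace ℝ E] {g : ℝ → ℝ} (hg : Integrable g)
    (h0 : ∀ x, 0 ≤ g x) {t c d B : ℝ} (hcd : c ≤ d) (hB : 0 ≤ B) (f : ℝ → E)
    (h : ∀ y, ‖f y‖ ≤ B * g (y - t)) : ‖∫ y in c..d, f y‖ ≤ B * ∫ x, g x := by
  have h1 : Integrable fun y : ℝ => B * g (y - t) := (hg.comp_sub_right t).const_mul B
  have h2 := intervalIntegral.norm_integral_le_of_norm_le (f := f) hcd (g := fun y => B * g (y - t))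
    (Eventually.of_forall fun y _ => h y) h1.intervalIntegrable
  refine h2.trans ?_
  rw [intervalIntegral.integral_of_le hcd]
  refine (setIntegral_le_integral h1 (Eventually.of_forall fun y => mul_nonneg hB (h0 _))).trans ?_
  rw [integral_const_mul, integral_sub_right_eq_self (μ := volume) g t]

/-- one horizontal integral -/
theorem horizG {k Cg t c V σ : ℝ} (hk : 0 < k) (hk1 : k ≤ 1) (hCg : 0 ≤ Cg) (ht : 9 ≤ t)
    (hct : t / 8 ≤ |c - t|) (hV : 1 ≤ V) (hV2 : V ≤ 9 * t)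
    (hg : ∀ σ ∈ Set.Icc (-1 / 2 : ℝ) (3 / 2), riemannZeta ⟨σ, c⟩ ≠ 0 ∧
      ‖deriv riemannZeta ⟨σ, c⟩ / riemannZeta ⟨σ, c⟩‖ ≤ Cg * Real.log V ^ 2) (hσ : 1 / 2 ≤ σ) (hσ2 : σ ≤ 3 / 2) :
    ‖∫ x in σ..(3 / 2), deriv riemannZeta ⟨x, c⟩ / riemannZeta ⟨x, c⟩ *
      gk k (((x - σ : ℝ) : ℂ) + (c - t : ℝ) * I)‖ ≤ 256 * Real.exp 1 * Cg / k := by
  have ht0 : 0 < t := by linarith
  have hlV : Real.log V ^ 2 ≤ 4 * t ^ 2 := by
    have h1 : 0 ≤ Real.log V := Real.log_nonneg hV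
    have h2 : Real.log V ≤ 2 * Real.log t := by
      have h3 : Real.log V ≤ Real.log (t ^ 2) := Real.log_le_log (by linarith) (by nlinarith)
      rwa [Real.log_pow] at h3
    have h3 : Real.log t ≤ t := Real.log_le_self ht0.le
    nlinarith
  have h1 : ∀ x ∈ Set.uIoc σ (3 / 2), ‖deriv riemannZeta ⟨x, c⟩ / riemannZeta ⟨x, c⟩ *
      gk k (((x - σ : ℝ) : ℂ) + (c - t : ℝ) * I)‖ ≤ 256 * Real.exp 1 * Cg / k := by
    intro x hx
    rw [Set.uIoc_of_le hσ2] at hx
    have h2 := (hg x ⟨by linarith [hx.1], hx.2⟩).2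
    have e1 : (((x - σ : ℝ) : ℂ) + (c - t : ℝ) * I).re = x - σ := by simp
    have e2 : (((x - σ : ℝ) : ℂ) + (c - t : ℝ) * I).im = c - t := by simp
    have h3 : ‖gk k (((x - σ : ℝ) : ℂ) + (c - t : ℝ) * I)‖ ≤ Real.exp 1 * Real.exp (-(k * t ^ 2 / 64)) := by
      rw [gk_norm, e1, e2, ← Real.exp_add]
      refine Real.exp_le_exp.2 ?_
      have a1 : (x - σ) ^ 2 ≤ 1 := by
        have : 0 ≤ x - σ := by linarith [hx.1]
        have : x - σ ≤ 1 := by linarith [hx.2]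
        nlinarith
      have a2 : t ^ 2 / 64 ≤ (c - t) ^ 2 := by
        rw [← sq_abs (c - t)]
        have : (t / 8) ^ 2 ≤ |c - t| ^ 2 := pow_le_pow_left₀ (by positivity) hct 2
        linarith [this, show (t / 8) ^ 2 = t ^ 2 / 64 by ring]
      have a3 : k * ((x - σ) ^ 2 - (c - t) ^ 2) ≤ k * (1 - t ^ 2 / 64) :=
        mul_le_mul_of_nonneg_left (by linarith) hk.le
      have a4 : k * (1 - t ^ 2 / 64) = k + -(k * t ^ 2 / 64) := by ring
      linarith
    have h4 : t ^ 2 * Real.exp (-(k * t ^ 2 / 64)) ≤ 64 / k := by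
      set v := k * t ^ 2 / 64 with hv
      have hv0 : 0 ≤ v := by positivity
      have b1 : v ≤ Real.exp v := by linarith [Real.add_one_le_exp v]
      have b2 : v * Real.exp (-v) ≤ 1 := by
        rw [Real.exp_neg, ← div_eq_mul_inv, div_le_one (Real.exp_pos v)]
        exact b1
      have b3 : t ^ 2 = 64 / k * v := by rw [hv]; field_simp
      rw [b3, mul_assoc]
      have : 0 < 64 / k := by positivity
      nlinarith
    rw [norm_mul]
    calc ‖deriv riemannZeta ⟨x, c⟩ / riemannZeta ⟨x, c⟩‖ * ‖gk k (((x - σ : ℝ) : ℂ) + (c - t : ℝ) * I)‖ ≤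
          (Cg * (4 * t ^ 2)) * (Real.exp 1 * Real.exp (-(k * t ^ 2 / 64))) := by
          refine mul_le_mul (h2.trans ?_) h3 (norm_nonneg _) (by positivity)
          exact mul_le_mul_of_nonneg_left hlV hCg
      _ = 4 * Real.exp 1 * Cg * (t ^ 2 * Real.exp (-(k * t ^ 2 / 64))) := by ring
      _ ≤ 4 * Real.exp 1 * Cg * (64 / k) := mul_le_mul_of_nonneg_left h4 (by positivity)
      _ = _ := by ring
  have h2 := intervalIntegral.norm_integral_le_of_norm_le_const h1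
  refine h2.trans ?_
  have h3 : |3 / 2 - σ| ≤ 1 := by rw [abs_le]; constructor <;> linarith
  calc 256 * Real.exp 1 * Cg / k * |3 / 2 - σ| ≤ 256 * Real.exp 1 * Cg / k * 1 :=
        mul_le_mul_of_nonneg_left h3 (by positivity)
    _ = _ := mul_one _

theorem gline (hLIT : S_LIT) : S_GLINE := by
  intro k hk hk1
  obtain ⟨B0, hB0, hlog⟩ := log_bd
  obtain ⟨Cg, hCg, hgood⟩ := H370.good_height H370.good_zeta
  have hpi := Real.pi_pos
  have hB1 := B1_nonneg
  set g : ℝ → ℝ := fun x => Real.exp (-k * x ^ 2) with hg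
  have hgi : Integrable g := integrable_exp_neg_mul_sq hk
  have hg0 : ∀ x, 0 ≤ g x := fun x => (Real.exp_pos _).le
  set G : ℝ := ∫ x, g x with hG
  have hG0 : 0 ≤ G := integral_nonneg hg0
  have hgk : ∀ y : ℝ, (gk k ((y : ℂ) * I)).re = g y := by
    intro y
    rw [gk_im, ofReal_re, hg]
    simp only
    congr 1
    ring
  refine ⟨B0 * G + B1 * Real.exp 1 * G + 2 * (256 * Real.exp 1 * Cg / k), by positivity, ?_⟩
  filter_upwards [eventually_ge_atTop 64] with t ht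
  have ht0 : 0 < t := by linarith
  obtain ⟨U1, hU1, hg1⟩ := hgood (t - t / 8 - 1) (by linarith)
  obtain ⟨U2, hU2, hg2⟩ := hgood (t + t / 8) (by linarith)
  obtain ⟨hU1a, hU1b⟩ := hU1
  obtain ⟨hU2a, hU2b⟩ := hU2
  have hU1b' : U1 ≤ t - t / 8 := by linarith
  refine ⟨U1, U2, hU1a, hU1b', hU2a, hU2b, fun a ha ha2 => ?_⟩
  have hU : U1 < U2 := by linarith
  set Z : Finset ℂ := (ZD t).filter (fun s => a < s.re ∧ U1 < s.im ∧ s.im < U2) with hZ
  have hlit := hLIT riemannZeta (gk k) a (3 / 2) U1 U2 t Z ha2 hU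
    (fun s hs => z_an (fun h => by
      have h1 : U1 ≤ s.im := hs.2.1
      rw [h, one_im] at h1
      linarith))
    (gk_diff k)
    (fun y => by rw [gk_im, ofReal_im])
    (fun x hx => ⟨(hg1 x ⟨by linarith [hx.1], hx.2⟩).1, (hg2 x ⟨by linarith [hx.1], hx.2⟩).1⟩)
    (fun y _ => z_ne y)
    (fun s => by
      rw [hZ, Finset.mem_filter, mem_ZD (by linarith)]
      constructor
      · rintro ⟨⟨h1, h2, h3, h4, h5⟩, h6, h7, h8⟩
        exact ⟨h6, by linarith, h7, h8, h5⟩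
      · rintro ⟨h1, h2, h3, h4, h5⟩
        have h6 : s.re < 1 := by
          by_contra hcon
          push Not at hcon
          exact riemannZeta_ne_zero_of_one_le_re hcon h5
        exact ⟨⟨by linarith, h6, by linarith, by linarith, h5⟩, h1, h3, h4⟩)
  have e0 : (fun u => Real.exp (-(k * (u - t) ^ 2)) * Real.log ‖riemannZeta ⟨a, u⟩‖) =
      fun y => (gk k (((y - t : ℝ) : ℂ) * I)).re * Real.log ‖riemannZeta ⟨a, y⟩‖ := by
    funext y
    rw [gk_im, ofReal_re]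
  rw [e0]
  refine ⟨hlit.1, ?_⟩
  rw [hlit.2]
  have t1 : |∫ y in U1..U2, (gk k (((y - t : ℝ) : ℂ) * I)).re * Real.log ‖riemannZeta ⟨3 / 2, y⟩‖| ≤ B0 * G := by
    have h1 := int_le hgi hg0 (t := t) hU.le hB0
      (fun y => (gk k (((y - t : ℝ) : ℂ) * I)).re * Real.log ‖riemannZeta ⟨3 / 2, y⟩‖) (fun y => ?_)
    · exact h1
    · rw [hgk, norm_mul, Real.norm_eq_abs, Real.norm_eq_abs, abs_of_nonneg (hg0 _), mul_comm]
      exact mul_le_mul_of_nonneg_right (hlog y) (hg0 _)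
  have t2 : |∫ σ in a..(3 / 2), (∫ y in U1..U2, deriv riemannZeta ⟨3 / 2, y⟩ / riemannZeta ⟨3 / 2, y⟩ *
      gk k (((3 / 2 - σ : ℝ) : ℂ) + (y - t : ℝ) * I)).re| ≤ B1 * Real.exp 1 * G := by
    have h1 := intervalIntegral.norm_integral_le_of_norm_le_const (a := a) (b := 3 / 2)
      (f := fun σ => (∫ y in U1..U2, deriv riemannZeta ⟨3 / 2, y⟩ / riemannZeta ⟨3 / 2, y⟩ *
      gk k (((3 / 2 - σ : ℝ) : ℂ) + (y - t : ℝ) * I)).re) (C := B1 * Real.exp 1 * G) (fun σ hσ => ?_)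
    · rw [Real.norm_eq_abs] at h1
      refine h1.trans ?_
      rw [abs_of_pos (by linarith)]
      calc B1 * Real.exp 1 * G * (3 / 2 - a) ≤ B1 * Real.exp 1 * G * 1 :=
            mul_le_mul_of_nonneg_left (by linarith) (by positivity)
        _ = _ := mul_one _
    · rw [Set.uIoc_of_le (by linarith)] at hσ
      refine (Complex.abs_re_le_norm _).trans ?_
      refine int_le hgi hg0 (t := t) hU.le (by positivity) _ fun y => ?_
      rw [norm_mul, gk_norm]
      have e1 : (((3 / 2 - σ : ℝ) : ℂ) + (y - t : ℝ) * I).re = 3 / 2 - σ := by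
        rw [add_re, ofReal_re, re_ofReal_mul, I_re, mul_zero, add_zero]
      have e2 : (((3 / 2 - σ : ℝ) : ℂ) + (y - t : ℝ) * I).im = y - t := by
        rw [add_im, ofReal_im, im_ofReal_mul, I_im, mul_one, zero_add]
      rw [e1, e2, mul_assoc]
      refine mul_le_mul (Gz_norm y) ?_ (Real.exp_pos _).le hB1
      rw [hg]
      simp only
      rw [← Real.exp_add]
      refine Real.exp_le_exp.2 ?_
      have a1 : (3 / 2 - σ) ^ 2 ≤ 1 := by
        have : 0 ≤ 3 / 2 - σ := by linarith [hσ.2]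
        have : 3 / 2 - σ ≤ 1 := by linarith [hσ.1]
        nlinarith
      nlinarith [mul_le_mul_of_nonneg_left a1 hk.le]
  have t3 : ∑ s ∈ Z, (H370.mult riemannZeta s : ℝ) * ∫ σ in a..s.re, (gk k (s - (σ + t * I))).re =
      ∑ s ∈ Zw t U1 U2, (mz s : ℝ) * wl k t a s := by
    have h1 : Z ⊆ Zw t U1 U2 := by
      intro s hs
      obtain ⟨h2, h3, h4, h5⟩ := Finset.mem_filter.1 hs
      exact Finset.mem_filter.2 ⟨h2, by linarith, h4, h5⟩
    rw [← Finset.sum_subset h1 (fun s hs hns => ?_)]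
    · refine Finset.sum_congr rfl fun s hs => ?_
      have h2 : a < s.re := (Finset.mem_filter.1 hs).2.1
      unfold wl
      rw [max_eq_right h2.le]
      rfl
    · have h2 : s.re ≤ a := by
        by_contra hcon
        push Not at hcon
        obtain ⟨h3, h4, h5, h6⟩ := Finset.mem_filter.1 hs
        exact hns (Finset.mem_filter.2 ⟨h3, hcon, h5, h6⟩)
      unfold wl
      rw [max_eq_left h2, intervalIntegral.integral_same, mul_zero]
  have t4 : |∫ σ in a..(3 / 2), ((∫ x in σ..(3 / 2), deriv riemannZeta ⟨x, U1⟩ / riemannZeta ⟨x, U1⟩ *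
      gk k (((x - σ : ℝ) : ℂ) + (U1 - t : ℝ) * I)) - (∫ x in σ..(3 / 2), deriv riemannZeta ⟨x, U2⟩ / riemannZeta ⟨x, U2⟩ *
      gk k (((x - σ : ℝ) : ℂ) + (U2 - t : ℝ) * I))).im| ≤ 2 * (256 * Real.exp 1 * Cg / k) := by
    have h1 := intervalIntegral.norm_integral_le_of_norm_le_const (a := a) (b := 3 / 2)
      (f := fun σ => ((∫ x in σ..(3 / 2), deriv riemannZeta ⟨x, U1⟩ / riemannZeta ⟨x, U1⟩ *
        gk k (((x - σ : ℝ) : ℂ) + (U1 - t : ℝ) * I)) - (∫ x in σ..(3 / 2), deriv riemannZeta ⟨x, U2⟩ / riemannZeta ⟨x, U2⟩ *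
        gk k (((x - σ : ℝ) : ℂ) + (U2 - t : ℝ) * I))).im) (C := 2 * (256 * Real.exp 1 * Cg / k)) (fun σ hσ => ?_)
    · rw [Real.norm_eq_abs] at h1
      refine h1.trans ?_
      rw [abs_of_pos (by linarith)]
      calc 2 * (256 * Real.exp 1 * Cg / k) * (3 / 2 - a) ≤ 2 * (256 * Real.exp 1 * Cg / k) * 1 :=
            mul_le_mul_of_nonneg_left (by linarith) (by positivity)
        _ = _ := mul_one _
    · rw [Set.uIoc_of_le (by linarith)] at hσ
      have a1 := horizG (t := t) hk hk1 hCg.le (by linarith) (c := U1) (V := t - t / 8 - 1) (σ := σ)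
        (by rw [abs_sub_comm, abs_of_pos (by linarith)]; linarith) (by linarith) (by linarith) hg1 (by linarith [hσ.1]) hσ.2
      have a2 := horizG (t := t) hk hk1 hCg.le (by linarith) (c := U2) (V := t + t / 8) (σ := σ)
        (by rw [abs_of_pos (by linarith)]; linarith) (by linarith) (by linarith) hg2 (by linarith [hσ.1]) hσ.2
      refine (Complex.abs_im_le_norm _).trans ((norm_sub_le _ _).trans ?_)
      linarith
  rw [t3]
  set A1 := ∫ y in U1..U2, (gk k (((y - t : ℝ) : ℂ) * I)).re * Real.log ‖riemannZeta ⟨3 / 2, y⟩‖ with hA1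
  set A2 := ∫ σ in a..(3 / 2), (∫ y in U1..U2, deriv riemannZeta ⟨3 / 2, y⟩ / riemannZeta ⟨3 / 2, y⟩ *
      gk k (((3 / 2 - σ : ℝ) : ℂ) + (y - t : ℝ) * I)).re with hA2
  set A3 := ∑ s ∈ Zw t U1 U2, (mz s : ℝ) * wl k t a s with hA3
  set A4 := ∫ σ in a..(3 / 2), ((∫ x in σ..(3 / 2), deriv riemannZeta ⟨x, U1⟩ / riemannZeta ⟨x, U1⟩ *
      gk k (((x - σ : ℝ) : ℂ) + (U1 - t : ℝ) * I)) - (∫ x in σ..(3 / 2), deriv riemannZeta ⟨x, U2⟩ / riemannZeta ⟨x, U2⟩ *
      gk k (((x - σ : ℝ) : ℂ) + (U2 - t : ℝ) * I))).im with hA4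
  have e1 : A1 - A2 + 2 * Real.pi * A3 - A4 - 2 * Real.pi * A3 = A1 + -A2 + -A4 := by ring
  rw [e1]
  have h4 : |A1 + -A2 + -A4| ≤ |A1| + |A2| + |A4| := by
    rw [← abs_neg A2, ← abs_neg A4]
    exact (abs_add_le _ _).trans (add_le_add (abs_add_le _ _) le_rfl)
  linarith

/-- **GLINE** -/
theorem t_GLINE : Pool.Agent.U196.SO.S_GLINE := gline Pool.Agent.Q121.UM.t_LIT

end

end Pool.Agent.U618.SL
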